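import Mathlib

/-!
# Division algebras: the centraliser bound and trace forms
-/

set_option autoImplicit false

namespace Pool.Agent.H18.BC

open MvPolynomial

universe u v w

section ind

variable {F : Type u} {D : Type v} [Field F] [DivisionRing D] [Algebra F D]
  [Algebra.IsCentral F D]

/-- linearly independent elements have independent two sided multiplications -/
theorem ind {ι : Type} (l : ι → D) (hl : LinearIndependent F l) (s : Finset ι) :
    ∀ d : ι → D, (∀ y, ∑ i ∈ s, l i * y * d i = 0) → ∀ i ∈ s, d i = 0 := by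
  classical
  induction s using Finset.induction_on with
  | empty => intro d _ i hi; exact absurd hi (Finset.notMem_empty i)
  | insert a s ha ih =>
    intro d hd
    have h0 : d a = 0 := by
      by_contra h
      have h1 : ∀ y, ∑ i ∈ insert a s, l i * y * (d i * (d a)⁻¹) = 0 := by
        intro y
        have h2 := congrArg (fun t => t * (d a)⁻¹) (hd y)
        simp only [zero_mul, Finset.sum_mul] at h2
        rw [← h2]
        exact Finset.sum_congr rfl fun i _ => by rw [mul_assoc (l i * y)]
      have h3 : ∀ z, ∀ i ∈ s, z * (d i * (d a)⁻¹) - (d i * (d a)⁻¹) * z = 0 := by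
        intro z
        refine ih (fun i => z * (d i * (d a)⁻¹) - (d i * (d a)⁻¹) * z) fun y => ?_
        have h4 := h1 (y * z)
        have h5 := congrArg (fun t => t * z) (h1 y)
        simp only [zero_mul, Finset.sum_mul] at h5
        rw [Finset.sum_insert ha, mul_inv_cancel₀ h, mul_one] at h4 h5
        have h6 : ∑ i ∈ s, l i * y * (z * (d i * (d a)⁻¹) - (d i * (d a)⁻¹) * z) =
            ∑ i ∈ s, l i * (y * z) * (d i * (d a)⁻¹) -
              ∑ i ∈ s, l i * y * (d i * (d a)⁻¹) * z := by
          rw [← Finset.sum_sub_distrib]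
          exact Finset.sum_congr rfl fun i _ => by noncomm_ring
        rw [h6]
        have h7 : l a * (y * z) = l a * y * z := (mul_assoc _ _ _).symm
        rw [h7] at h4
        rw [← sub_eq_zero.2 (h4.trans h5.symm)]
        abel
      have h8 : ∀ i ∈ insert a s, ∃ c : F, algebraMap F D c = d i * (d a)⁻¹ := by
        intro i hi
        rcases Finset.mem_insert.1 hi with rfl | hi
        · exact ⟨1, by rw [map_one, mul_inv_cancel₀ h]⟩
        · have h9 : d i * (d a)⁻¹ ∈ Subalgebra.center F D :=
            Subalgebra.mem_center_iff.2 fun z => sub_eq_zero.1 (h3 z i hi)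
          rw [Algebra.IsCentral.center_eq_bot] at h9
          exact Algebra.mem_bot.1 h9
      choose! c hc using h8
      have h10 := linearIndependent_iff'.1 hl (insert a s) c (by
        rw [← h1 1]
        refine Finset.sum_congr rfl fun i hi => ?_
        rw [← hc i hi, mul_one, Algebra.smul_def, Algebra.commutes]) a (Finset.mem_insert_self _ _)
      have h11 := hc a (Finset.mem_insert_self _ _)
      rw [h10, map_zero, mul_inv_cancel₀ h] at h11
      exact zero_ne_one h11
    intro i hi
    rcases Finset.mem_insert.1 hi with rfl | hi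
    · exact h0
    · refine ih d (fun y => ?_) i hi
      have := hd y
      rwa [Finset.sum_insert ha, h0, mul_zero, zero_add] at this

end ind

section sub

variable {F : Type u} {D : Type v} {L : Type w} [Field F] [DivisionRing D] [Algebra F D]
  [Algebra.IsCentral F D] [FiniteDimensional F D] [Field L] [Algebra F L]

/-- a subfield of a central division algebra of degree `n` has degree at most `n` -/
theorem finrank_le (φ : L →ₐ[F] D) :
    Module.finrank F L ^ 2 ≤ Module.finrank F D := by
  classical
  let _ : Module L D := Module.compHom D φ.toRingHom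
  have hsm : ∀ (a : L) (y : D), a • y = φ a * y := fun _ _ => rfl
  have : IsScalarTower F L D := ⟨fun c a y => by
    rw [hsm, hsm, map_smul, smul_mul_assoc]⟩
  have : FiniteDimensional F L := FiniteDimensional.of_injective φ.toLinearMap φ.injective
  have : FiniteDimensional L D := Module.Finite.of_restrictScalars_finite F L D
  set m := Module.finrank F L with hm
  set q := Module.finrank L D with hq
  have hmq : m * q = Module.finrank F D := Module.finrank_mul_finrank F L D
  have b : Module.Basis (Fin m) F L := Module.finBasis F L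
  have y : Module.Basis (Fin q) L D := Module.finBasis L D
  let Φ : (Fin m → D) →ₗ[F] (Fin q → D) :=
    { toFun := fun d j => ∑ i, φ (b i) * y j * d i
      map_add' := by
        intro d e
        ext j
        simp only [Pi.add_apply, mul_add, Finset.sum_add_distrib]
      map_smul' := by
        intro c d
        ext j
        simp only [Pi.smul_apply, mul_smul_comm, RingHom.id_apply, Finset.smul_sum] }
  have hΦ : Function.Injective Φ := by
    rw [injective_iff_map_eq_zero]
    intro d hd
    have h1 : ∀ j, ∑ i, φ (b i) * y j * d i = 0 := fun j => congrFun hd j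
    have hli : LinearIndependent F (fun i => φ (b i)) :=
      b.linearIndependent.map' φ.toLinearMap (LinearMap.ker_eq_bot.2 φ.injective)
    ext i
    refine ind (fun i => φ (b i)) hli Finset.univ d (fun z => ?_) i (Finset.mem_univ i)
    rw [← y.sum_repr z]
    have h2 : ∀ i, φ (b i) * (∑ j, y.repr z j • y j) * d i =
        ∑ j, φ (y.repr z j) * (φ (b i) * y j * d i) := by
      intro i
      rw [Finset.mul_sum, Finset.sum_mul]
      refine Finset.sum_congr rfl fun j _ => ?_
      rw [hsm, ← mul_assoc (φ (b i)), ← map_mul, mul_comm (b i), map_mul]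
      simp only [mul_assoc]
    simp only [h2]
    rw [Finset.sum_comm]
    refine Finset.sum_eq_zero fun j _ => ?_
    rw [← Finset.mul_sum, h1 j, mul_zero]
  have h3 := LinearMap.finrank_le_finrank_of_injective hΦ
  rw [Module.finrank_pi_fintype, Module.finrank_pi_fintype] at h3
  simp only [Finset.sum_const, Finset.card_univ, Fintype.card_fin, smul_eq_mul] at h3
  have h4 : m ≤ q := Nat.le_of_mul_le_mul_right h3 Module.finrank_pos
  calc m ^ 2 = m * m := sq m
    _ ≤ m * q := Nat.mul_le_mul_left _ h4
    _ = _ := hmq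

end sub

section tr

variable {F : Type u} {D : Type v} {L : Type w} [Field F] [DivisionRing D] [Algebra F D]
  [FiniteDimensional F D] [Field L] [Algebra F L]

/-- the trace of a left multiplication -/
noncomputable def T (F : Type u) {D : Type v} [Field F] [DivisionRing D] [Algebra F D] (x : D) : F :=
  LinearMap.trace F D (LinearMap.mulLeft F x)

omit [FiniteDimensional F D] in
lemma T_eq {ι : Type} [Fintype ι] [DecidableEq ι] (b : Module.Basis ι F D) (x : D) :
    T F x = (Algebra.leftMulMatrix b x).trace := by
  rw [T, LinearMap.trace_eq_matrix_trace F b]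
  rfl

/-- the trace on a subfield -/
theorem T_sub (φ : L →ₐ[F] D) :
    ∃ q : ℕ, q ≠ 0 ∧ ∀ l : L, T F (φ l) = q * Algebra.trace F L l := by
  classical
  let _ : Module L D := Module.compHom D φ.toRingHom
  have hsm : ∀ (a : L) (y : D), a • y = φ a * y := fun _ _ => rfl
  have : IsScalarTower F L D := ⟨fun c a y => by
    rw [hsm, hsm, map_smul, smul_mul_assoc]⟩
  have : FiniteDimensional F L := FiniteDimensional.of_injective φ.toLinearMap φ.injective
  have : FiniteDimensional L D := Module.Finite.of_restrictScalars_finite F L D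
  have b : Module.Basis (Fin (Module.finrank F L)) F L := Module.finBasis F L
  have y : Module.Basis (Fin (Module.finrank L D)) L D := Module.finBasis L D
  refine ⟨Module.finrank L D, Module.finrank_pos.ne', fun l => ?_⟩
  rw [T, LinearMap.trace_eq_matrix_trace F (b.smulTower y), Matrix.trace,
    Algebra.trace_eq_matrix_trace b, Matrix.trace, Fintype.sum_prod_type]
  rw [Finset.mul_sum]
  refine Finset.sum_congr rfl fun i _ => ?_
  have h : ∀ j, Matrix.diag (LinearMap.toMatrix (b.smulTower y) (b.smulTower y)
      (LinearMap.mulLeft F (φ l))) (i, j) = Matrix.diag (Algebra.leftMulMatrix b l) i := by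
    intro j
    rw [Matrix.diag_apply, Matrix.diag_apply, LinearMap.toMatrix_apply,
      Algebra.leftMulMatrix_eq_repr_mul, Module.Basis.smulTower_repr]
    simp only [Module.Basis.smulTower_apply, LinearMap.mulLeft_apply]
    rw [← hsm, smul_smul, map_smul, Module.Basis.repr_self, Finsupp.smul_apply,
      Finsupp.single_eq_same, smul_eq_mul, mul_one]
  rw [Finset.sum_congr rfl fun j _ => h j, Finset.sum_const, Finset.card_univ, Fintype.card_fin,
    nsmul_eq_mul]

end tr

section quartic

variable {F : Type u} {L : Type v} [Field F] [CharZero F] [Field L] [Algebra F L]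

/-- vanishing of the first three power sums -/
theorem pow_four (b : Module.Basis (Fin 4) F L) (r : L) (hb : ∀ i : Fin 4, b i = r ^ (i : ℕ))
    (h1 : Algebra.trace F L r = 0) (h2 : Algebra.trace F L (r ^ 2) = 0)
    (h3 : Algebra.trace F L (r ^ 3) = 0) : ∃ c : F, r ^ 4 = algebraMap F L c := by
  classical
  have e0 : b 0 = 1 := by rw [hb]; exact pow_zero r
  have e1 : b 1 = r := by rw [hb]; exact pow_one r
  have e2 : b 2 = r ^ 2 := by rw [hb]; rfl
  have e3 : b 3 = r ^ 3 := by rw [hb]; rfl
  have key : ∀ c : Fin 4 → F, ∀ i, b.repr (c 0 • 1 + c 1 • r + c 2 • r ^ 2 + c 3 • r ^ 3) i =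
      c i := by
    intro c i
    have h : c 0 • 1 + c 1 • r + c 2 • r ^ 2 + c 3 • r ^ 3 = ∑ i, c i • b i := by
      rw [Fin.sum_univ_four, e0, e1, e2, e3]
    rw [h, Module.Basis.repr_sum_self]
  have key' : ∀ c0 c1 c2 c3 : F, ∀ i,
      b.repr (c0 • 1 + c1 • r + c2 • r ^ 2 + c3 • r ^ 3) i = ![c0, c1, c2, c3] i :=
    fun c0 c1 c2 c3 i => key ![c0, c1, c2, c3] i
  obtain ⟨c, hc⟩ : ∃ c : Fin 4 → F, r ^ 4 = c 0 • 1 + c 1 • r + c 2 • r ^ 2 + c 3 • r ^ 3 := by
    refine ⟨b.repr (r ^ 4), ?_⟩
    have := b.sum_repr (r ^ 4)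
    rw [Fin.sum_univ_four, e0, e1, e2, e3] at this
    exact this.symm
  have tr : ∀ l : L, Algebra.trace F L l = b.repr (l * 1) 0 + b.repr (l * r) 1 +
      b.repr (l * r ^ 2) 2 + b.repr (l * r ^ 3) 3 := by
    intro l
    rw [Algebra.trace_eq_matrix_trace b, Matrix.trace, Fin.sum_univ_four]
    simp only [Matrix.diag_apply, Algebra.leftMulMatrix_eq_repr_mul, e0, e1, e2, e3]
  simp only [Algebra.smul_def] at hc key'
  have t1 : c 3 = 0 := by
    rw [tr] at h1
    have a0 : r * 1 = algebraMap F L 0 * 1 + algebraMap F L 1 * r + algebraMap F L 0 * r ^ 2 +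
      algebraMap F L 0 * r ^ 3 := by simp
    have a1 : r * r = algebraMap F L 0 * 1 + algebraMap F L 0 * r + algebraMap F L 1 * r ^ 2 +
      algebraMap F L 0 * r ^ 3 := by simp [sq]
    have a2 : r * r ^ 2 = algebraMap F L 0 * 1 + algebraMap F L 0 * r + algebraMap F L 0 * r ^ 2 +
      algebraMap F L 1 * r ^ 3 := by simp; ring
    have a3 : r * r ^ 3 = algebraMap F L (c 0) * 1 + algebraMap F L (c 1) * r +
      algebraMap F L (c 2) * r ^ 2 + algebraMap F L (c 3) * r ^ 3 := by rw [← hc]; ring
    rw [a0, a1, a2, a3, key', key', key', key'] at h1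
    simpa using h1
  rw [t1, map_zero, zero_mul, add_zero] at hc
  have t2 : c 2 = 0 := by
    rw [tr] at h2
    have a0 : r ^ 2 * 1 = algebraMap F L 0 * 1 + algebraMap F L 0 * r + algebraMap F L 1 * r ^ 2 +
      algebraMap F L 0 * r ^ 3 := by simp
    have a1 : r ^ 2 * r = algebraMap F L 0 * 1 + algebraMap F L 0 * r + algebraMap F L 0 * r ^ 2 +
      algebraMap F L 1 * r ^ 3 := by simp; ring
    have a2 : r ^ 2 * r ^ 2 = algebraMap F L (c 0) * 1 + algebraMap F L (c 1) * r +
      algebraMap F L (c 2) * r ^ 2 + algebraMap F L 0 * r ^ 3 := by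
      rw [map_zero, zero_mul, add_zero, ← hc]; ring
    have a3 : r ^ 2 * r ^ 3 = algebraMap F L 0 * 1 + algebraMap F L (c 0) * r +
      algebraMap F L (c 1) * r ^ 2 + algebraMap F L (c 2) * r ^ 3 := by
      have : r ^ 2 * r ^ 3 = r ^ 4 * r := by ring
      rw [this, hc, map_zero]; ring
    rw [a0, a1, a2, a3, key', key', key', key'] at h2
    have h4 : c 2 + c 2 = 0 := by simpa using h2
    exact add_self_eq_zero.1 h4
  rw [t2, map_zero, zero_mul, add_zero] at hc
  have t3 : c 1 = 0 := by
    rw [tr] at h3
    have a0 : r ^ 3 * 1 = algebraMap F L 0 * 1 + algebraMap F L 0 * r + algebraMap F L 0 * r ^ 2 +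
      algebraMap F L 1 * r ^ 3 := by simp
    have a1 : r ^ 3 * r = algebraMap F L (c 0) * 1 + algebraMap F L (c 1) * r +
      algebraMap F L 0 * r ^ 2 + algebraMap F L 0 * r ^ 3 := by
      rw [map_zero, zero_mul, zero_mul, add_zero, add_zero, ← hc]; ring
    have a2 : r ^ 3 * r ^ 2 = algebraMap F L 0 * 1 + algebraMap F L (c 0) * r +
      algebraMap F L (c 1) * r ^ 2 + algebraMap F L 0 * r ^ 3 := by
      have : r ^ 3 * r ^ 2 = r ^ 4 * r := by ring
      rw [this, hc, map_zero]; ring
    have a3 : r ^ 3 * r ^ 3 = algebraMap F L 0 * 1 + algebraMap F L 0 * r +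
      algebraMap F L (c 0) * r ^ 2 + algebraMap F L (c 1) * r ^ 3 := by
      have : r ^ 3 * r ^ 3 = r ^ 4 * r ^ 2 := by ring
      rw [this, hc, map_zero]; ring
    rw [a0, a1, a2, a3, key', key', key', key'] at h3
    have h4 : c 1 + c 1 + c 1 = 0 := by simpa using h3
    have h5 : (3 : F) * c 1 = 0 := by rw [← h4]; ring
    exact (mul_eq_zero.1 h5).resolve_left (by norm_num)
  rw [t3, map_zero, zero_mul, add_zero, mul_one] at hc
  exact ⟨c 0, hc⟩

end quartic

end Pool.Agent.H18.BC
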