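import Pool.Agent.H81.CY.Zero

/-!
# Systems of forms over function fields (Tsen, Lang, Nagata)
-/

set_option autoImplicit false

namespace Pool.Agent.H18.BC

open MvPolynomial

universe u v

/-- forms of degrees `d j` in more than `∑ d j ^ i` variables have a common nontrivial zero -/
def Lang (i : ℕ) (K : Type u) [Field K] : Prop :=
  ∀ (σ ι : Type) [Fintype σ] [Fintype ι] (d : ι → ℕ) (f : ι → MvPolynomial σ K),
    (∀ j, 1 ≤ d j) → (∀ j, (f j).IsHomogeneous (d j)) → ∑ j, d j ^ i < Fintype.card σ →
    ∃ x : σ → K, x ≠ 0 ∧ ∀ j, eval x (f j) = 0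

lemma eval_zero_of_homogeneous {K : Type u} [Field K] {σ : Type} {d : ℕ} {f : MvPolynomial σ K}
    (hd : 1 ≤ d) (hf : f.IsHomogeneous d) : eval 0 f = 0 := by
  rw [MvPolynomial.eval_zero, MvPolynomial.constantCoeff_eq]
  exact hf.coeff_eq_zero (by simp; omega)

theorem lang_zero (k : Type u) [Field k] [IsAlgClosed k] : Lang 0 k := by
  intro σ ι _ _ d f hd hf hc
  exact Pool.Agent.H81.CY.exists_zero f (fun j => eval_zero_of_homogeneous (hd j) (hf j))
    (by simpa using hc)

section coord

variable {K : Type u} {R : Type v} [Field K] [CommRing R] [Algebra K R] {τ : Type}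

/-- a coordinate of a polynomial with coefficients in a `K`-algebra -/
noncomputable def cp (l : R →ₗ[K] K) (p : MvPolynomial τ R) : MvPolynomial τ K :=
  ∑ ν ∈ p.support, monomial ν (l (coeff ν p))

lemma cp_hom (l : R →ₗ[K] K) {p : MvPolynomial τ R} {d : ℕ} (hp : p.IsHomogeneous d) :
    (cp l p).IsHomogeneous d := by
  refine IsHomogeneous.sum _ _ _ fun ν hν => isHomogeneous_monomial _ ?_
  have h := hp (mem_support_iff.1 hν)
  rw [← h, Finsupp.degree_eq_weight_one]
  rfl

lemma eval_cp (l : R →ₗ[K] K) (p : MvPolynomial τ R) (x : τ → K) :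
    eval x (cp l p) = l (eval (fun t => algebraMap K R (x t)) p) := by
  rw [cp, map_sum, MvPolynomial.eval_eq, map_sum]
  refine Finset.sum_congr rfl fun ν _ => ?_
  rw [eval_monomial]
  have h : coeff ν p * ∏ i ∈ ν.support, algebraMap K R (x i) ^ ν i =
      (ν.prod fun n e => x n ^ e) • coeff ν p := by
    rw [Algebra.smul_def, mul_comm, Finsupp.prod, map_prod]
    simp only [map_pow]
  rw [h, map_smul, smul_eq_mul, mul_comm]

end coord

/-- descent to a subfield -/
theorem descent {K : Type u} {R : Type v} [Field K] [CommRing R] [Algebra K R] {i : ℕ}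
    (hK : Lang i K) {σ ι : Type} [Fintype σ] [Fintype ι] (d : ι → ℕ) (f : ι → MvPolynomial σ R)
    (hd : ∀ j, 1 ≤ d j) (hf : ∀ j, (f j).IsHomogeneous (d j)) {M : ℕ} (r : Fin M → R)
    (β : ι → ℕ) (l : (j : ι) → Fin (β j) → (R →ₗ[K] K))
    (hl : ∀ (w : σ × Fin M → K) (j : ι),
      (∀ b, l j b (eval (fun s => ∑ a, w (s, a) • r a) (f j)) = 0) →
        eval (fun s => ∑ a, w (s, a) • r a) (f j) = 0)
    (hc : ∑ j, β j * d j ^ i < Fintype.card σ * M) :
    ∃ w : σ × Fin M → K, w ≠ 0 ∧ ∀ j, eval (fun s => ∑ a, w (s, a) • r a) (f j) = 0 := by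
  classical
  obtain ⟨w, hw, h0⟩ := hK (σ × Fin M) (Σ j, Fin (β j)) (fun p => d p.1)
    (fun p => cp (l p.1 p.2) (aeval (fun s => ∑ a, C (r a) * X (s, a)) (f p.1)))
    (fun p => hd p.1)
    (fun p => cp_hom _ (by
      have := (hf p.1).aeval (τ := σ × Fin M) (n := 1)
        (fun s => ∑ a, (C (r a) * X (s, a) : MvPolynomial (σ × Fin M) R))
        (fun s => IsHomogeneous.sum _ _ _ fun a _ => isHomogeneous_C_mul_X _ _)
      rwa [one_mul] at this))
    (by
      rw [Fintype.sum_sigma]
      simpa using hc)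
  refine ⟨w, hw, fun j => hl w j fun b => ?_⟩
  have h := h0 ⟨j, b⟩
  rw [eval_cp] at h
  rw [← h]
  congr 1
  rw [← aeval_eq_eval, ← aeval_eq_eval]
  have hcomp : (aeval (R := R) (fun t : σ × Fin M => algebraMap K R (w t))).comp
      (aeval (fun s => ∑ a, (C (r a) * X (s, a) : MvPolynomial (σ × Fin M) R))) =
      aeval (R := R) (fun s => ∑ a, w (s, a) • r a) := by
    ext s
    simp only [AlgHom.comp_apply, aeval_X, map_sum, map_mul, algHom_C, Algebra.smul_def]
    refine Finset.sum_congr rfl fun a _ => ?_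
    simp [mul_comm]
  exact (congrArg (fun g : MvPolynomial σ R →ₐ[R] R => g (f j)) hcomp).symm

/-- finite extensions -/
theorem Lang.finite {K : Type u} {L : Type v} [Field K] [Field L] [Algebra K L]
    [FiniteDimensional K L] {i : ℕ} (hK : Lang i K) : Lang i L := by
  intro σ ι _ _ d f hd hf hc
  have b := Module.finBasis K L
  have hpos : 0 < Module.finrank K L := Module.finrank_pos
  obtain ⟨w, hw, h0⟩ := descent hK d f hd hf b (fun _ => Module.finrank K L)
    (fun _ a => b.coord a) (by
      intro w j h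
      refine (b.ext_elem_iff).2 fun a => ?_
      rw [map_zero, Finsupp.zero_apply]
      exact h a) (by
      rw [← Finset.mul_sum, mul_comm]
      exact Nat.mul_lt_mul_of_pos_right hc hpos)
  refine ⟨_, ?_, h0⟩
  intro h
  apply hw
  ext ⟨s, a⟩
  have h1 := congrFun h s
  simp only [Pi.zero_apply] at h1
  exact (Fintype.linearIndependent_iff.1 b.linearIndependent) _ h1 a

/-- rational functions in one variable -/
theorem Lang.ratFunc {K : Type u} [Field K] {i : ℕ} (hK : Lang i K) : Lang (i + 1) (RatFunc K) := by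
  classical
  intro σ ι _ _ d f hd hf hc
  -- clear denominators
  obtain ⟨q, hq⟩ := IsLocalization.exist_integer_multiples_of_finset
    (nonZeroDivisors (Polynomial K))
    (Finset.univ.biUnion fun j => (f j).support.image fun ν => coeff ν (f j))
  have hq0 : (q : Polynomial K) ≠ 0 := nonZeroDivisors.ne_zero q.2
  have hg : ∀ j, ∃ g : MvPolynomial σ (Polynomial K), g.IsHomogeneous (d j) ∧
      MvPolynomial.map (algebraMap (Polynomial K) (RatFunc K)) g =
        C (algebraMap (Polynomial K) (RatFunc K) q) * f j := by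
    intro j
    have h1 : ∀ ν, ∃ c : Polynomial K, (coeff ν (f j) = 0 → c = 0) ∧
        algebraMap (Polynomial K) (RatFunc K) c =
          algebraMap (Polynomial K) (RatFunc K) q * coeff ν (f j) := by
      intro ν
      by_cases h : coeff ν (f j) = 0
      · exact ⟨0, fun _ => rfl, by simp [h]⟩
      · obtain ⟨c, hc⟩ := hq (coeff ν (f j)) (Finset.mem_biUnion.2 ⟨j, Finset.mem_univ _,
          Finset.mem_image_of_mem _ (mem_support_iff.2 h)⟩)
        refine ⟨c, fun h' => absurd h' h, ?_⟩
        rw [hc, Algebra.smul_def]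
    choose c hc0 hc1 using h1
    refine ⟨∑ ν ∈ (f j).support, monomial ν (c ν), ?_, ?_⟩
    · refine IsHomogeneous.sum _ _ _ fun ν hν => isHomogeneous_monomial _ ?_
      have h := hf j (mem_support_iff.1 hν)
      rw [← h, Finsupp.degree_eq_weight_one]
      rfl
    · rw [map_sum]
      conv_rhs => rw [(f j).as_sum, Finset.mul_sum]
      refine Finset.sum_congr rfl fun ν _ => ?_
      rw [map_monomial, hc1, C_mul_monomial]
  choose g hgh hgm using hg
  -- a bound for the degrees of the coefficients
  obtain ⟨c, hcb⟩ : ∃ c : ℕ, ∀ j ν, (coeff ν (g j)).natDegree ≤ c := by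
    refine ⟨∑ j, ∑ ν ∈ (g j).support, (coeff ν (g j)).natDegree, fun j ν => ?_⟩
    by_cases h : ν ∈ (g j).support
    · refine le_trans ?_ (Finset.single_le_sum (f := fun j => ∑ ν ∈ (g j).support,
        (coeff ν (g j)).natDegree) (fun _ _ => Nat.zero_le _) (Finset.mem_univ j))
      exact Finset.single_le_sum (f := fun ν => (coeff ν (g j)).natDegree)
        (fun _ _ => Nat.zero_le _) h
    · rw [notMem_support_iff.1 h]
      simp
  set S : ℕ := ∑ j, d j ^ i with hS
  set m : ℕ := (c + 1) * S with hm
  have hdeg : ∀ (w : σ × Fin (m + 1) → K) (j : ι),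
      (eval (fun s => ∑ a, w (s, a) • (Polynomial.X : Polynomial K) ^ (a : ℕ)) (g j)).natDegree ≤
        c + d j * m := by
    intro w j
    rw [MvPolynomial.eval_eq]
    refine Polynomial.natDegree_sum_le_of_forall_le _ _ fun ν hν => ?_
    refine Polynomial.natDegree_mul_le.trans (add_le_add (hcb j ν) ?_)
    refine (Polynomial.natDegree_prod_le _ _).trans ?_
    have h1 : ∑ s ∈ ν.support, ν s = d j := (IsHomogeneous.degree_eq_sum_deg_support (hgh j) hν).symm
    rw [← h1, Finset.sum_mul]
    refine Finset.sum_le_sum fun s _ => ?_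
    refine Polynomial.natDegree_pow_le.trans (Nat.mul_le_mul_left _ ?_)
    refine Polynomial.natDegree_sum_le_of_forall_le _ _ fun a _ => ?_
    refine (Polynomial.natDegree_smul_le _ _).trans ?_
    rw [Polynomial.natDegree_X_pow]
    exact Nat.lt_succ_iff.1 a.2
  obtain ⟨w, hw, h0⟩ := descent hK d g hd hgh
    (fun a : Fin (m + 1) => (Polynomial.X : Polynomial K) ^ (a : ℕ))
    (fun j => c + d j * m + 1) (fun _ b => Polynomial.lcoeff K b) (by
      intro w j h
      ext n
      rw [Polynomial.coeff_zero]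
      by_cases hn : n < c + d j * m + 1
      · exact h ⟨n, hn⟩
      · exact Polynomial.coeff_eq_zero_of_natDegree_lt (by have := hdeg w j; omega)) (by
      have h1 : ∑ j, (c + d j * m + 1) * d j ^ i = (c + 1) * S + m * ∑ j, d j ^ (i + 1) := by
        rw [hS, Finset.mul_sum, Finset.mul_sum, ← Finset.sum_add_distrib]
        refine Finset.sum_congr rfl fun j _ => ?_
        ring
      rw [h1]
      have h2 : ∑ j, d j ^ (i + 1) + 1 ≤ Fintype.card σ := hc
      rw [← hm]
      have h3 : ∀ E : ℕ, m + m * E < (E + 1) * (m + 1) := fun E => by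
        have : (E + 1) * (m + 1) = m + m * E + E + 1 := by ring
        omega
      exact (h3 _).trans_le (Nat.mul_le_mul_right _ h2))
  refine ⟨fun s => algebraMap (Polynomial K) (RatFunc K)
    (∑ a, w (s, a) • (Polynomial.X : Polynomial K) ^ (a : ℕ)), ?_, fun j => ?_⟩
  · intro h
    apply hw
    ext ⟨s, a⟩
    have h1 := congrFun h s
    simp only [Pi.zero_apply] at h1
    rw [map_eq_zero_iff _ (IsFractionRing.injective (Polynomial K) (RatFunc K))] at h1
    have h2 := congrArg (fun p => Polynomial.coeff p (a : ℕ)) h1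
    simp only [Polynomial.finsetSum_coeff, Polynomial.coeff_smul, Polynomial.coeff_X_pow,
      Polynomial.coeff_zero, smul_eq_mul, mul_ite, mul_one, mul_zero] at h2
    rw [Finset.sum_eq_single a] at h2
    · simpa using h2
    · intro b _ hb
      rw [if_neg]
      exact fun h => hb (Fin.ext h).symm
    · simp
  · have h1 := congrArg (algebraMap (Polynomial K) (RatFunc K)) (h0 j)
    rw [map_zero, MvPolynomial.map_eval, hgm j, map_mul, eval_C] at h1
    refine (mul_eq_zero.1 h1).resolve_left fun h => hq0 ?_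
    exact (map_eq_zero_iff _ (IsFractionRing.injective (Polynomial K) (RatFunc K))).1 h

theorem Lang.congr {K : Type u} {L : Type v} [Field K] [Field L] (e : K ≃+* L) {i : ℕ}
    (hK : Lang i K) : Lang i L := by
  let _ := e.toRingHom.toAlgebra
  have : FiniteDimensional K L :=
    Module.Finite.of_surjective (Algebra.linearMap K L) e.surjective
  exact hK.finite

/-- algebraic extensions -/
theorem Lang.algebraic {K : Type u} {L : Type v} [Field K] [Field L] [Algebra K L]
    [Algebra.IsAlgebraic K L] {i : ℕ} (hK : Lang i K) : Lang i L := by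
  classical
  intro σ ι _ _ d f hd hf hc
  set S : Finset L := Finset.univ.biUnion fun j => (f j).support.image fun ν => coeff ν (f j)
  set L0 : IntermediateField K L := IntermediateField.adjoin K (S : Set L) with hL0
  have : FiniteDimensional K L0 := by
    rw [hL0]
    exact IntermediateField.finiteDimensional_adjoin fun x _ => Algebra.IsIntegral.isIntegral x
  have hmem : ∀ j ν, coeff ν (f j) ∈ L0 := by
    intro j ν
    by_cases h : ν ∈ (f j).support
    · refine IntermediateField.subset_adjoin _ _ ?_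
      exact Finset.mem_coe.2 (Finset.mem_biUnion.2 ⟨j, Finset.mem_univ _,
        Finset.mem_image_of_mem _ h⟩)
    · rw [notMem_support_iff.1 h]
      exact zero_mem _
  set g : ι → MvPolynomial σ L0 := fun j =>
    ∑ ν ∈ (f j).support, monomial ν (⟨coeff ν (f j), hmem j ν⟩ : L0) with hg
  have hgm : ∀ j, MvPolynomial.map (algebraMap L0 L) (g j) = f j := by
    intro j
    conv_rhs => rw [(f j).as_sum]
    rw [hg, map_sum]
    refine Finset.sum_congr rfl fun ν _ => ?_
    rw [map_monomial]
    rfl
  obtain ⟨x, hx, h0⟩ := hK.finite (L := L0) σ ι d g hd (fun j =>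
    IsHomogeneous.of_map (algebraMap L0 L).injective (by rw [hgm j]; exact hf j)) hc
  refine ⟨fun s => algebraMap L0 L (x s), ?_, fun j => ?_⟩
  · intro h
    apply hx
    ext s
    have := congrFun h s
    simpa using this
  · rw [← hgm j]
    have h1 := congrArg (algebraMap L0 L) (h0 j)
    rw [map_zero, MvPolynomial.map_eval] at h1
    exact h1

lemma trdeg_ratFunc (K : Type u) [Field K] : Algebra.trdeg K (RatFunc K) = 1 := by
  have h := trdeg_add_eq K (Polynomial K) (A := RatFunc K)
  have h0 : Algebra.trdeg (Polynomial K) (RatFunc K) = 0 :=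
    trdeg_eq_zero_iff.2 (IsLocalization.isAlgebraic _ (nonZeroDivisors (Polynomial K)))
  rw [h0, add_zero, Polynomial.trdeg_of_isDomain] at h
  exact h.symm

/-- one more transcendental element -/
theorem Lang.step {K : Type u} {F : Type v} [Field K] [Field F] [Algebra K F] {i n : ℕ}
    (hK : Lang i K) (h : Algebra.trdeg K F = (n + 1 : ℕ)) :
    ∃ K1 : IntermediateField K F, Lang (i + 1) K1 ∧ Algebra.trdeg K1 F = n := by
  have h1 : ¬ Algebra.IsAlgebraic K F := by
    intro hA
    rw [trdeg_eq_zero_iff.2 hA] at h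
    exact absurd h (by exact_mod_cast (Nat.succ_ne_zero n).symm)
  obtain ⟨s, hs⟩ := Algebra.transcendental_iff_not_isAlgebraic.2 h1
  have e := RatFunc.algEquivOfTranscendental s hs
  refine ⟨IntermediateField.adjoin K {s}, hK.ratFunc.congr e.toRingEquiv, ?_⟩
  have h2 : Algebra.trdeg K (IntermediateField.adjoin K {s}) = 1 := by
    have h3 := e.lift_trdeg_eq
    rw [trdeg_ratFunc, Cardinal.lift_one] at h3
    exact Cardinal.lift_eq_one.1 h3.symm
  have h3 := trdeg_add_eq K (IntermediateField.adjoin K {s}) (A := F)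
  rw [h2, h, Nat.cast_add, Nat.cast_one, add_comm] at h3
  exact Cardinal.add_right_inj_of_lt_aleph0 Cardinal.one_lt_aleph0 |>.1 h3

/-- a field of transcendence degree two over an algebraically closed field is `C₂` -/
theorem lang_two {k : Type u} {F : Type v} [Field k] [IsAlgClosed k] [Field F] [Algebra k F]
    (h : Algebra.trdeg k F = 2) : Lang 2 F := by
  obtain ⟨K1, hK1, h1⟩ := (lang_zero k).step (n := 1) (by rw [h]; norm_num)
  obtain ⟨K2, hK2, h2⟩ := hK1.step (n := 0) (by rw [h1])
  have : Algebra.IsAlgebraic K2 F := trdeg_eq_zero_iff.1 (by rw [h2]; simp)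
  exact hK2.algebraic

end Pool.Agent.H18.BC
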