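import Pool.Agent.H18.BC.Lang
import Pool.Agent.H18.BC.Div

/-!
# Division algebras of degree four over fields of transcendence degree two
-/

set_option autoImplicit false

namespace Pool.Agent.H18.BC

open MvPolynomial

universe u v w

section forms

variable {F : Type u} {D : Type v} [Field F] [DivisionRing D] [Algebra F D]

/-- powers of a matrix of linear forms -/
lemma hom_pow {σ κ : Type} [Fintype κ] [DecidableEq κ] (A : Matrix κ κ (MvPolynomial σ F))
    (hA : ∀ i j, (A i j).IsHomogeneous 1) (m : ℕ) : ∀ i j, ((A ^ m) i j).IsHomogeneous m := by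
  induction m with
  | zero =>
    intro i j
    rw [pow_zero, Matrix.one_apply]
    split_ifs
    · exact isHomogeneous_one _ _
    · exact isHomogeneous_zero _ _ _
  | succ m ih =>
    intro i j
    rw [pow_succ, Matrix.mul_apply]
    exact IsHomogeneous.sum _ _ _ fun t _ => (ih i t).mul (hA t j)

/-- the form `x ↦ T (x ^ m)` -/
theorem exists_form {N : ℕ} (b : Module.Basis (Fin N) F D) (m : ℕ) :
    ∃ f : MvPolynomial (Fin N) F, f.IsHomogeneous m ∧
      ∀ x : Fin N → F, eval x f = T F ((∑ i, x i • b i) ^ m) := by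
  classical
  set A : Matrix (Fin N) (Fin N) (MvPolynomial (Fin N) F) :=
    ∑ i, (X i : MvPolynomial (Fin N) F) • (Algebra.leftMulMatrix b (b i)).map C with hA
  refine ⟨(A ^ m).trace, ?_, fun x => ?_⟩
  · rw [Matrix.trace]
    refine IsHomogeneous.sum _ _ _ fun i _ => hom_pow A (fun i j => ?_) m i i
    rw [hA, Matrix.sum_apply]
    refine IsHomogeneous.sum _ _ _ fun t _ => ?_
    rw [Matrix.smul_apply, Matrix.map_apply, smul_eq_mul]
    have := (isHomogeneous_X F t).mul (isHomogeneous_C (Fin N) (Algebra.leftMulMatrix b (b t) i j))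
    rwa [add_zero] at this
  · rw [T_eq b, map_pow]
    have h1 : (eval x).mapMatrix A = Algebra.leftMulMatrix b (∑ i, x i • b i) := by
      rw [hA, map_sum, map_sum]
      refine Finset.sum_congr rfl fun i _ => ?_
      rw [map_smul (Algebra.leftMulMatrix b)]
      ext r s
      simp
    rw [← h1, ← map_pow]
    simp [Matrix.trace]

end forms

/-- a division algebra of degree four whose centre satisfies `C₂` for systems -/
theorem cyclic_of_lang {F : Type u} {D : Type v} [Field F] [CharZero F] (hL : Lang 2 F)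
    (hζ : (primitiveRoots 4 F).Nonempty) [DivisionRing D] [Algebra F D] [Algebra.IsCentral F D]
    (hD : Module.finrank F D = 16) :
    ∃ (L : Type u) (_ : Field L) (_ : Algebra F L) (_ : L →ₐ[F] D),
      Module.finrank F L = 4 ∧ IsGalois F L ∧ IsCyclic (L ≃ₐ[F] L) := by
  classical
  have : FiniteDimensional F D := Module.finite_of_finrank_pos (by omega)
  have b : Module.Basis (Fin 16) F D := Module.finBasisOfFinrankEq F D hD
  choose f hf hfe using fun j : Fin 3 => exists_form b ((j : ℕ) + 1)
  obtain ⟨x, hx0, hx⟩ := hL (Fin 16) (Fin 3) (fun j => (j : ℕ) + 1) f (fun j => by omega) hf (by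
    rw [Fin.sum_univ_three]
    simp)
  set d : D := ∑ i, x i • b i with hd
  have hd0 : d ≠ 0 := by
    intro h
    apply hx0
    ext i
    exact (Fintype.linearIndependent_iff.1 b.linearIndependent) x (by rw [← hd, h]) i
  have hT : ∀ j : ℕ, 1 ≤ j → j ≤ 3 → T F (d ^ j) = 0 := by
    intro j h1 h3
    have := hx ⟨j - 1, by omega⟩
    rw [hfe] at this
    have h2 : ((⟨j - 1, by omega⟩ : Fin 3) : ℕ) + 1 = j := by
      show j - 1 + 1 = j
      omega
    rw [h2] at this
    exact this
  have hT1 : T F (1 : D) = 16 := by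
    rw [T, LinearMap.mulLeft_one, LinearMap.trace_id, hD]
    norm_num
  have hint : IsIntegral F d := Algebra.IsIntegral.isIntegral d
  set p : Polynomial F := minpoly F d with hp
  have hpirr : Irreducible p := minpoly.irreducible hint
  have hpm : p.Monic := minpoly.monic hint
  -- the field `F[d]`
  have : Fact (Irreducible p) := ⟨hpirr⟩
  have hlift : ∀ a ∈ Ideal.span {p}, (Polynomial.aeval (R := F) d) a = 0 := by
    intro a ha
    obtain ⟨c, rfl⟩ := Ideal.mem_span_singleton'.1 ha
    rw [map_mul, hp, minpoly.aeval, mul_zero]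
  let φ : AdjoinRoot p →ₐ[F] D := Ideal.Quotient.liftₐ (Ideal.span {p}) (Polynomial.aeval d) hlift
  have hφ : φ (AdjoinRoot.root p) = d := by
    show Ideal.Quotient.liftₐ (Ideal.span {p}) (Polynomial.aeval d) hlift
      (Ideal.Quotient.mk _ Polynomial.X) = d
    rw [Ideal.Quotient.liftₐ_apply, Ideal.Quotient.lift_mk]
    exact Polynomial.aeval_X d
  have pb := AdjoinRoot.powerBasis hpirr.ne_zero
  have hfin : Module.finrank F (AdjoinRoot p) = p.natDegree :=
    (AdjoinRoot.powerBasis hpirr.ne_zero).finrank.trans (AdjoinRoot.powerBasis_dim _)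
  have hle : p.natDegree ≤ 4 := by
    have h1 := finrank_le φ
    rw [hfin, hD] at h1
    nlinarith
  -- the degree is four
  have hdeg : p.natDegree = 4 := by
    by_contra hne
    have h3 : p.natDegree ≤ 3 := by omega
    have h0 : p.coeff 0 ≠ 0 := minpoly.coeff_zero_ne_zero hint hd0
    have h4 : ∑ i ∈ Finset.range (p.natDegree + 1), p.coeff i * T F (d ^ i) = 0 := by
      have h5 : Polynomial.aeval d p = 0 := minpoly.aeval F d
      rw [Polynomial.aeval_eq_sum_range] at h5
      have h6 := congrArg (fun z => T F z) h5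
      have hTadd : ∀ (s : Finset ℕ) (g : ℕ → D), T F (∑ i ∈ s, g i) = ∑ i ∈ s, T F (g i) := by
        intro s g
        rw [T_eq b, map_sum, Matrix.trace_sum]
        exact Finset.sum_congr rfl fun i _ => (T_eq b _).symm
      simp only [hTadd] at h6
      rw [show T F (0 : D) = 0 by rw [T_eq b, map_zero, Matrix.trace_zero]] at h6
      rw [← h6]
      refine Finset.sum_congr rfl fun i _ => ?_
      rw [T_eq b, T_eq b, map_smul, Matrix.trace_smul, smul_eq_mul]
    rw [Finset.sum_eq_single 0] at h4
    · rw [pow_zero, hT1] at h4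
      exact h0 ((mul_eq_zero.1 h4).resolve_right (by norm_num))
    · intro i hi h
      rw [hT i (by omega) (by have := Finset.mem_range.1 hi; omega), mul_zero]
    · intro h
      exact absurd (Finset.mem_range.2 (Nat.succ_pos _)) h
  -- the fourth power is in the centre
  obtain ⟨q, hq0, hq⟩ := T_sub φ
  have htr : ∀ j : ℕ, 1 ≤ j → j ≤ 3 → Algebra.trace F (AdjoinRoot p) (AdjoinRoot.root p ^ j) = 0 := by
    intro j h1 h3
    have h4 := hq (AdjoinRoot.root p ^ j)
    rw [map_pow, hφ, hT j h1 h3] at h4
    exact (mul_eq_zero.1 h4.symm).resolve_left (by exact_mod_cast hq0)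
  have hdim : (AdjoinRoot.powerBasis hpirr.ne_zero).dim = 4 := by
    rw [AdjoinRoot.powerBasis_dim, hdeg]
  obtain ⟨c, hc⟩ := pow_four
    ((AdjoinRoot.powerBasis hpirr.ne_zero).basis.reindex (finCongr hdim)) (AdjoinRoot.root p)
    (fun i => by
      rw [Module.Basis.reindex_apply, PowerBasis.basis_eq_pow, AdjoinRoot.powerBasis_gen]
      rfl)
    (by simpa using htr 1 le_rfl (by norm_num)) (htr 2 (by norm_num) (by norm_num))
    (htr 3 (by norm_num) le_rfl)
  have hd4 : d ^ 4 = algebraMap F D c := by
    rw [← hφ, ← map_pow, hc, AlgHom.commutes]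
  have hpc : p = Polynomial.X ^ 4 - Polynomial.C c := by
    have hm : (Polynomial.X ^ 4 - Polynomial.C c : Polynomial F).Monic :=
      Polynomial.monic_X_pow_sub_C c (by norm_num)
    have hdvd : p ∣ Polynomial.X ^ 4 - Polynomial.C c := by
      refine minpoly.dvd F d ?_
      rw [map_sub, map_pow, Polynomial.aeval_X, Polynomial.aeval_C, hd4, sub_self]
    refine Polynomial.eq_of_monic_of_associated hpm hm ?_
    refine Polynomial.associated_of_dvd_of_natDegree_le hdvd hm.ne_zero ?_
    rw [Polynomial.natDegree_X_pow_sub_C, hdeg]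
  have H : Irreducible (Polynomial.X ^ 4 - Polynomial.C c : Polynomial F) := hpc ▸ hpirr
  have : Fact (Irreducible (Polynomial.X ^ 4 - Polynomial.C c : Polynomial F)) := ⟨H⟩
  have hlift' : ∀ a ∈ Ideal.span {(Polynomial.X ^ 4 - Polynomial.C c : Polynomial F)},
      (Polynomial.aeval (R := F) d) a = 0 := by
    rw [← hpc]
    exact hlift
  have := isSplittingField_AdjoinRoot_X_pow_sub_C hζ H
  exact ⟨AdjoinRoot (Polynomial.X ^ 4 - Polynomial.C c), inferInstance, inferInstance,
    Ideal.Quotient.liftₐ _ (Polynomial.aeval d) hlift',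
    finrank_of_isSplittingField_X_pow_sub_C hζ H _,
    isGalois_of_isSplittingField_X_pow_sub_C hζ H _,
    isCyclic_of_isSplittingField_X_pow_sub_C hζ H _⟩

end Pool.Agent.H18.BC
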